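import Pool.Agent.H95.GY.Targets

/-!
Module CTS of the board gy_modules (MP_c39b0e_gt): continuity of maps to `G`.
-/

set_option autoImplicit false

open Filter Topology MeasureTheory Set
open scoped Pointwise

universe u v

namespace Pool.Agent.H86.GY

open Pool.Agent.H95.GY

theorem pf_CTS : T_CTS.{u, v} := by
  intro G _ _ _ _ hG N hN T _ f hf
  rw [continuous_iff_continuousAt]
  intro t₀
  rw [ContinuousAt, tendsto_def]
  intro W hW
  -- a neighbourhood of one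
  have hcont : Tendsto (fun p : G × G => f t₀ * p.1 * p.2) (𝓝 (1, 1)) (𝓝 (f t₀)) := by
    have h1 : Continuous (fun p : G × G => f t₀ * p.1 * p.2) :=
      (continuous_const.mul continuous_fst).mul continuous_snd
    have h2 := h1.tendsto (1, 1)
    simpa using h2
  have h3 := hcont hW
  rw [mem_map, nhds_prod_eq, mem_prod_iff] at h3
  obtain ⟨A, hA, B, hB, hAB⟩ := h3
  obtain ⟨W₁, hW₁A, hW₁o, hW₁⟩ := mem_nhds_iff.1 hA
  obtain ⟨N', h1, h2, h4⟩ := hG.exists_le hN hB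
  have hopen : IsOpen ((QuotientGroup.mk : G → G ⧸ N') '' ((fun x => f t₀ * x) '' W₁)) :=
    QuotientGroup.isOpenMap_coe _ ((Homeomorph.mulLeft (f t₀)).isOpenMap _ hW₁o)
  have hmem : (QuotientGroup.mk (f t₀) : G ⧸ N') ∈
      (QuotientGroup.mk : G → G ⧸ N') '' ((fun x => f t₀ * x) '' W₁) :=
    ⟨f t₀, ⟨1, hW₁, mul_one _⟩, rfl⟩
  have h5 := ((hf N' h1 h2).continuousAt (x := t₀)) (hopen.mem_nhds hmem)
  rw [mem_map] at h5
  filter_upwards [h5] with t ht
  obtain ⟨y, ⟨x, hx, rfl⟩, hy⟩ := ht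
  have h6 : (f t₀ * x)⁻¹ * f t ∈ N' := QuotientGroup.eq.1 hy
  have h7 : (x, (f t₀ * x)⁻¹ * f t) ∈ A ×ˢ B := ⟨hW₁A hx, h4 h6⟩
  have h8 := hAB h7
  simpa [mul_assoc] using h8

end Pool.Agent.H86.GY
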