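import Pool.Agent.H95.GY.Targets

/-!
Module GLU of the board gy_modules (MP_c39b0e_gt): gluing of cosets.
-/

set_option autoImplicit false

open Filter Topology MeasureTheory Set
open scoped Pointwise

universe u v

namespace Pool.Agent.H86.GY

open Pool.Agent.H95.GY

theorem pf_GLU : T_GLU.{u} := by
  intro G _ _ _ _ hG N hN C hC hmono
  let ι := {N' : Subgroup G // Good N' ∧ N' ≤ N}
  have hι : Nonempty ι := ⟨⟨N, hN, le_rfl⟩⟩
  have hdir : Directed (· ⊇ ·) (fun i : ι => C i.1) := by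
    intro i j
    have hg : Good (i.1 ⊓ j.1) := i.2.1.inf j.2.1
    refine ⟨⟨i.1 ⊓ j.1, hg, inf_le_left.trans i.2.2⟩, ?_, ?_⟩
    · exact hmono i.1 (i.1 ⊓ j.1) i.2.1 hg inf_le_left i.2.2
    · exact hmono j.1 (i.1 ⊓ j.1) j.2.1 hg inf_le_right j.2.2
  have hcpt : ∀ i : ι, IsCompact (C i.1) := by
    intro i
    obtain ⟨g, hg⟩ := hC i.1 i.2.1 i.2.2
    have h1 : C i.1 = (fun x => g * x) '' (i.1 : Set G) := by
      rw [hg]
      ext x
      constructor
      · intro hx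
        exact ⟨g⁻¹ * x, hx, by simp⟩
      · rintro ⟨y, hy, rfl⟩
        show g⁻¹ * (g * y) ∈ i.1
        rw [inv_mul_cancel_left]
        exact hy
    rw [h1]
    exact i.2.1.compact.image (continuous_const.mul continuous_id)
  have hne : ∀ i : ι, (C i.1).Nonempty := by
    intro i
    obtain ⟨g, hg⟩ := hC i.1 i.2.1 i.2.2
    refine ⟨g, ?_⟩
    rw [hg]
    show g⁻¹ * g ∈ i.1
    rw [inv_mul_cancel]
    exact i.1.one_mem
  obtain ⟨g, hg⟩ := IsCompact.nonempty_iInter_of_directed_nonempty_isCompact_isClosed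
    (fun i : ι => C i.1) hdir hne hcpt (fun i => (hcpt i).isClosed)
  rw [mem_iInter] at hg
  refine ⟨g, fun N' h1 h2 => hg ⟨N', h1, h2⟩, ?_⟩
  intro h hh
  by_contra hgh
  have hU : ({g⁻¹ * h}ᶜ : Set G) ∈ 𝓝 (1 : G) := by
    apply isOpen_compl_singleton.mem_nhds
    intro h1
    have h2 : (1 : G) = g⁻¹ * h := h1
    exact hgh (inv_mul_eq_one.1 h2.symm).symm
  obtain ⟨N', h1, h2, h3⟩ := hG.exists_le hN hU
  obtain ⟨a, ha⟩ := hC N' h1 h2
  have hg' : a⁻¹ * g ∈ N' := by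
    have := hg ⟨N', h1, h2⟩
    change g ∈ C N' at this
    rw [ha] at this
    exact this
  have hh' : a⁻¹ * h ∈ N' := by
    have := hh N' h1 h2
    rw [ha] at this
    exact this
  have h4 : g⁻¹ * h ∈ N' := by
    have h5 := N'.mul_mem (N'.inv_mem hg') hh'
    have h6 : (a⁻¹ * g)⁻¹ * (a⁻¹ * h) = g⁻¹ * h := by group
    rwa [h6] at h5
  exact h3 h4 rfl

end Pool.Agent.H86.GY
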